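import Mathlib

open MvPolynomial Finset

namespace Pool.Agent.Results.MP_3acc10_al.TwoLinearForms

/-- The ideal `(x_1^2, ..., x_n^2)` of `K[x_1, ..., x_n]`. -/
noncomputable def squareIdeal (K : Type*) [Field K] (n : ℕ) : Ideal (MvPolynomial (Fin n) K) :=
  Ideal.span (Set.range fun i : Fin n => (X i : MvPolynomial (Fin n) K) ^ 2)

/-- The square-free algebra `K[x_1, ..., x_n] / (x_1^2, ..., x_n^2)`. -/
abbrev SquareFreeAlg (K : Type*) [Field K] (n : ℕ) : Type _ :=
  MvPolynomial (Fin n) K ⧸ squareIdeal K n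

/-- The index set of the coefficients of `r` forms of degrees `d 0, ..., d (r - 1)` in the
square-free algebra: the `j`-th form has one coefficient for every square-free monomial
`∏ i ∈ S, x_i` with `|S| = d j`. -/
abbrev CoeffIdx (n : ℕ) {r : ℕ} (d : Fin r → ℕ) : Type :=
  (j : Fin r) × {S : Finset (Fin n) // S.card = d j}

/-- The `j`-th form, of degree `d j`, with coefficient vector `c`. -/
noncomputable def form {K : Type*} [Field K] {n r : ℕ} (d : Fin r → ℕ) (c : CoeffIdx n d → K)
    (j : Fin r) : SquareFreeAlg K n :=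
  ∑ S : {S : Finset (Fin n) // S.card = d j},
    c ⟨j, S⟩ • Ideal.Quotient.mk (squareIdeal K n) (∏ i ∈ S.1, X i)

/-- The ideal of the square-free algebra generated by the `r` forms with coefficient
vector `c`. -/
noncomputable def genIdeal {K : Type*} [Field K] {n r : ℕ} (d : Fin r → ℕ)
    (c : CoeffIdx n d → K) : Ideal (SquareFreeAlg K n) :=
  Ideal.span (Set.range (form d c))

/-- The graded piece of degree `i` of the quotient of the square-free algebra by `I`: the image
of the space of homogeneous polynomials of degree `i`. -/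
noncomputable def gradedPiece {K : Type*} [Field K] {n : ℕ} (I : Ideal (SquareFreeAlg K n))
    (i : ℕ) : Submodule K (SquareFreeAlg K n ⧸ I) :=
  (homogeneousSubmodule (Fin n) K i).map
    ((Ideal.Quotient.mkₐ K I).comp (Ideal.Quotient.mkₐ K (squareIdeal K n))).toLinearMap

/-- The Hilbert series of the quotient of the square-free algebra by `I`. -/
noncomputable def hilbertSeries {K : Type*} [Field K] {n : ℕ} (I : Ideal (SquareFreeAlg K n)) :
    PowerSeries ℤ :=
  PowerSeries.mk fun i => (Module.finrank K (gradedPiece I i) : ℤ)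

/-- The truncation `⟨a⟩` of a power series before its first coefficient `≤ 0`. -/
noncomputable def truncation (a : PowerSeries ℤ) : PowerSeries ℤ :=
  open scoped Classical in
  PowerSeries.mk fun i => if ∀ j ≤ i, 0 < PowerSeries.coeff j a then PowerSeries.coeff i a else 0

/-- The conjectured Hilbert series `⟨(1 + t)^n ∏ j, (1 - t^(d j))⟩`. -/
noncomputable def expectedSeries (n : ℕ) {r : ℕ} (d : Fin r → ℕ) : PowerSeries ℤ :=
  truncation ((1 + PowerSeries.X) ^ n * ∏ j, (1 - PowerSeries.X ^ d j))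

/-- A property of ideals holds for generic ideals generated in degrees `d`: it holds on a nonempty
Zariski open subset of the coefficient space (over an infinite field: off the zero set of some
nonzero polynomial in the coefficients). -/
def Generically (K : Type*) [Field K] (n : ℕ) {r : ℕ} (d : Fin r → ℕ)
    (prop : Ideal (SquareFreeAlg K n) → Prop) : Prop :=
  ∃ P : MvPolynomial (CoeffIdx n d) K, P ≠ 0 ∧
    ∀ c : CoeffIdx n d → K, eval c P ≠ 0 → prop (genIdeal d c)

/-! ### The functional -/

section functional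

variable {K : Type*} [Field K] {n : ℕ}

/-- indicator exponent of a set -/
noncomputable def ind (S : Finset (Fin n)) : Fin n →₀ ℕ := ∑ i ∈ S, Finsupp.single i 1

lemma ind_apply (S : Finset (Fin n)) (k : Fin n) : ind S k = if k ∈ S then 1 else 0 := by
  classical
  simp [ind, Finsupp.finsetSum_apply, Finsupp.single_apply]

/-- the functional with coefficients `C` on the square-free monomials -/
noncomputable def phi (A : Finset (Finset (Fin n))) (C : Finset (Fin n) → K) :
    MvPolynomial (Fin n) K →ₗ[K] K :=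
  ∑ S ∈ A, C S • MvPolynomial.lcoeff K (ind S)

lemma phi_apply (A : Finset (Finset (Fin n))) (C : Finset (Fin n) → K)
    (p : MvPolynomial (Fin n) K) : phi A C p = ∑ S ∈ A, C S * coeff (ind S) p := by
  simp [phi, LinearMap.sum_apply]

lemma phi_square (A : Finset (Finset (Fin n))) (C : Finset (Fin n) → K)
    (g : MvPolynomial (Fin n) K) (i : Fin n) : phi A C (g * X i ^ 2) = 0 := by
  classical
  rw [phi_apply]
  refine Finset.sum_eq_zero fun S _ => ?_
  rw [X_pow_eq_monomial, coeff_mul_monomial', if_neg, mul_zero]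
  intro h
  have := h i
  rw [ind_apply, Finsupp.single_eq_same] at this
  split_ifs at this <;> omega

lemma phi_squareIdeal (A : Finset (Finset (Fin n))) (C : Finset (Fin n) → K)
    {g : MvPolynomial (Fin n) K} (hg : g ∈ squareIdeal K n) : phi A C g = 0 := by
  classical
  rw [squareIdeal, Submodule.mem_span_range_iff_exists_fun] at hg
  obtain ⟨c, rfl⟩ := hg
  rw [map_sum]
  exact Finset.sum_eq_zero fun i _ => by rw [smul_eq_mul]; exact phi_square A C _ i

lemma phi_linear (N : Finset (Fin n)) (q : ℕ) (C : Finset (Fin n) → K) (e : Fin n → K)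
    (h : ∀ T ∈ N.powersetCard q, ∑ k ∈ N \ T, e k * C (insert k T) = 0)
    (g : MvPolynomial (Fin n) K) :
    phi (N.powersetCard (q + 1)) C (g * ∑ k, e k • X k) = 0 := by
  classical
  have key : phi (N.powersetCard (q + 1)) C (g * ∑ k, e k • X k)
      = ∑ T ∈ N.powersetCard q, (∑ k ∈ N \ T, e k * C (insert k T)) * coeff (ind T) g := by
    rw [phi_apply]
    have h1 : ∀ S ∈ N.powersetCard (q + 1),
        C S * coeff (ind S) (g * ∑ k, e k • X k)
          = ∑ k ∈ S, C S * e k * coeff (ind (S.erase k)) g := by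
      intro S hS
      rw [Finset.mul_sum, coeff_sum, Finset.mul_sum]
      rw [← Finset.sum_subset (Finset.subset_univ S)]
      · refine Finset.sum_congr rfl fun k hk => ?_
        rw [mul_smul_comm, coeff_smul, smul_eq_mul, coeff_mul_X']
        have hk' : k ∈ (ind S).support := by
          rw [Finsupp.mem_support_iff, ind_apply, if_pos hk]; exact one_ne_zero
        rw [if_pos hk']
        have : ind S - Finsupp.single k 1 = ind (S.erase k) := by
          rw [ind, ← Finset.add_sum_erase S _ hk, add_tsub_cancel_left, ind]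
        rw [this, mul_assoc]
      · intro k _ hk
        rw [mul_smul_comm, coeff_smul, smul_eq_mul, coeff_mul_X']
        have hk' : k ∉ (ind S).support := by
          rw [Finsupp.mem_support_iff, ind_apply, if_neg hk]; simp
        rw [if_neg hk', mul_zero, mul_zero]
    rw [Finset.sum_congr rfl h1]
    simp_rw [Finset.sum_mul]
    rw [Finset.sum_sigma', Finset.sum_sigma']
    refine Finset.sum_bij' (fun x _ => ⟨x.1.erase x.2, x.2⟩) (fun x _ => ⟨insert x.2 x.1, x.2⟩)
      ?_ ?_ ?_ ?_ ?_
    · rintro ⟨S, k⟩ hx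
      simp only [mem_sigma, mem_powersetCard, mem_sdiff] at hx ⊢
      obtain ⟨⟨hSN, hSc⟩, hk⟩ := hx
      refine ⟨⟨(Finset.erase_subset _ _).trans hSN, ?_⟩, hSN hk, Finset.notMem_erase k S⟩
      rw [Finset.card_erase_of_mem hk, hSc]; rfl
    · rintro ⟨T, k⟩ hx
      simp only [mem_sigma, mem_powersetCard, mem_sdiff] at hx ⊢
      obtain ⟨⟨hTN, hTc⟩, hkN, hkT⟩ := hx
      refine ⟨⟨Finset.insert_subset hkN hTN, ?_⟩, Finset.mem_insert_self _ _⟩
      rw [Finset.card_insert_of_notMem hkT, hTc]
    · rintro ⟨S, k⟩ hx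
      simp only [mem_sigma] at hx
      simp [Finset.insert_erase hx.2]
    · rintro ⟨T, k⟩ hx
      simp only [mem_sigma, mem_sdiff] at hx
      simp [Finset.erase_insert hx.2.2]
    · rintro ⟨S, k⟩ hx
      simp only [mem_sigma] at hx
      simp only [Finset.insert_erase hx.2]
      ring
  rw [key]
  exact Finset.sum_eq_zero fun T hT => by rw [h T hT, zero_mul]

/-- the coefficients of the functional -/
noncomputable def cf (N : Finset (Fin n)) (a t : Fin n → K) (S : Finset (Fin n)) : K :=
  ∏ i ∈ S, ((a i)⁻¹ * ∏ l ∈ N \ S, (t i - t l)⁻¹)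

lemma lagrange_zero (U : Finset (Fin n)) (t : Fin n → K) (ht : Function.Injective t)
    (P : Polynomial K) (hP : P.natDegree + 1 < U.card) :
    ∑ k ∈ U, P.eval (t k) * ∏ l ∈ U.erase k, (t k - t l)⁻¹ = 0 := by
  classical
  have hdeg : P.degree < U.card := by
    refine lt_of_le_of_lt Polynomial.degree_le_natDegree ?_
    exact_mod_cast (by omega : P.natDegree < U.card)
  have h := Lagrange.coeff_eq_sum (s := U) (v := t) (ht.injOn) hdeg
  rw [Polynomial.coeff_eq_zero_of_natDegree_lt (by omega)] at h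
  rw [h]
  refine Finset.sum_congr rfl fun k _ => ?_
  rw [Finset.prod_inv_distrib, div_eq_mul_inv]

lemma cf_insert (N : Finset (Fin n)) (a t : Fin n → K) (ha : ∀ i, a i ≠ 0)
    (ht : Function.Injective t) (T : Finset (Fin n)) (k : Fin n) (hk : k ∈ N \ T) :
    a k * cf N a t (insert k T)
      = (∏ i ∈ T, ((a i)⁻¹ * ∏ l ∈ N \ T, (t i - t l)⁻¹)) *
        ((∏ i ∈ T, (t i - t k)) * ∏ l ∈ (N \ T).erase k, (t k - t l)⁻¹) := by
  classical
  rw [mem_sdiff] at hk
  have hsd : N \ insert k T = (N \ T).erase k := by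
    ext x; simp only [mem_sdiff, mem_insert, mem_erase]; tauto
  rw [cf, hsd, Finset.prod_insert hk.2]
  rw [← mul_assoc, ← mul_assoc, mul_inv_cancel₀ (ha k), one_mul, ← mul_assoc,
    ← Finset.prod_mul_distrib, mul_comm]
  congr 1
  refine Finset.prod_congr rfl fun i hi => ?_
  have hik : t i - t k ≠ 0 := by
    rw [sub_ne_zero]
    intro h
    have := ht h
    subst this
    exact hk.2 hi
  have hkU : k ∈ N \ T := mem_sdiff.2 hk
  rw [← Finset.mul_prod_erase (N \ T) _ hkU]
  field_simp

lemma cf_relation (N : Finset (Fin n)) (a t : Fin n → K) (ha : ∀ i, a i ≠ 0)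
    (ht : Function.Injective t) (q : ℕ) (hN : 2 * q + 3 ≤ N.card) (s : ℕ) (hs : s ≤ 1)
    (T : Finset (Fin n)) (hT : T ∈ N.powersetCard q) :
    ∑ k ∈ N \ T, (a k * t k ^ s) * cf N a t (insert k T) = 0 := by
  classical
  rw [mem_powersetCard] at hT
  have hc : (N \ T).card = N.card - q := by
    rw [Finset.card_sdiff_of_subset hT.1, hT.2]
  set P : Polynomial K := Polynomial.X ^ s * ∏ i ∈ T, (Polynomial.C (t i) - Polynomial.X) with hP
  have hPd : P.natDegree ≤ s + q := by
    rw [hP]
    refine (Polynomial.natDegree_mul_le).trans (add_le_add ?_ ?_)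
    · exact Polynomial.natDegree_X_pow_le s
    · refine (Polynomial.natDegree_prod_le _ _).trans ?_
      refine (Finset.sum_le_card_nsmul _ _ 1 fun i _ => ?_).trans ?_
      · refine (Polynomial.natDegree_sub_le _ _).trans ?_
        simp
      · simp [hT.2]
  have h0 := lagrange_zero (N \ T) t ht P (by omega)
  have h1 : ∀ k ∈ N \ T, (a k * t k ^ s) * cf N a t (insert k T)
      = (∏ i ∈ T, ((a i)⁻¹ * ∏ l ∈ N \ T, (t i - t l)⁻¹)) *
        (P.eval (t k) * ∏ l ∈ (N \ T).erase k, (t k - t l)⁻¹) := by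
    intro k hk
    have h2 := cf_insert N a t ha ht T k hk
    have h3 : P.eval (t k) = t k ^ s * ∏ i ∈ T, (t i - t k) := by
      rw [hP]; simp [Polynomial.eval_prod]
    rw [h3, mul_right_comm, h2]
    ring
  rw [Finset.sum_congr rfl h1, ← Finset.mul_sum, h0, mul_zero]

lemma cf_ne_zero (N : Finset (Fin n)) (a t : Fin n → K) (ha : ∀ i, a i ≠ 0)
    (ht : Function.Injective t) (S : Finset (Fin n)) : cf N a t S ≠ 0 := by
  classical
  rw [cf, Finset.prod_ne_zero_iff]
  intro i hi
  refine mul_ne_zero (inv_ne_zero (ha i)) ?_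
  rw [Finset.prod_ne_zero_iff]
  intro l hl
  rw [mem_sdiff] at hl
  refine inv_ne_zero (sub_ne_zero.2 fun h => ?_)
  have := ht h
  subst this
  exact hl.2 hi

lemma ind_injective : Function.Injective (ind : Finset (Fin n) → Fin n →₀ ℕ) := by
  intro S T h
  ext k
  have := DFunLike.congr_fun h k
  rw [ind_apply, ind_apply] at this
  by_cases h1 : k ∈ S <;> by_cases h2 : k ∈ T <;> simp_all

lemma prod_X_eq (S : Finset (Fin n)) :
    (∏ i ∈ S, X i : MvPolynomial (Fin n) K) = monomial (ind S) 1 := by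
  classical
  rw [ind, monomial_sum_one]
  rfl

lemma phi_prod (A : Finset (Finset (Fin n))) (C : Finset (Fin n) → K) (S : Finset (Fin n))
    (hS : S ∈ A) : phi A C (∏ i ∈ S, X i) = C S := by
  classical
  rw [phi_apply, prod_X_eq, Finset.sum_eq_single S]
  · simp
  · intro T _ hT
    rw [coeff_monomial, if_neg, mul_zero]
    exact fun h => hT (ind_injective h).symm
  · exact fun h => absurd hS h

end functional

/-! ### Two linear forms -/

section linear

variable {K : Type*} [Field K] {n : ℕ}

/-- Coefficients of the `j`-th linear form. -/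
def lc (c : CoeffIdx n (fun _ : Fin 2 => 1) → K) (j : Fin 2) (k : Fin n) : K :=
  c ⟨j, ⟨{k}, card_singleton k⟩⟩

/-- the variables as sets of cardinality one -/
noncomputable def singleEquiv (n : ℕ) : Fin n ≃ {S : Finset (Fin n) // S.card = 1} :=
  Equiv.ofBijective (fun k => ⟨{k}, card_singleton k⟩)
    ⟨fun a b h => by simpa using congrArg Subtype.val h, fun ⟨S, hS⟩ => by
      obtain ⟨k, rfl⟩ := Finset.card_eq_one.1 hS
      exact ⟨k, rfl⟩⟩

lemma form_linear (c : CoeffIdx n (fun _ : Fin 2 => 1) → K) (j : Fin 2) :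
    form (fun _ : Fin 2 => 1) c j
      = Ideal.Quotient.mk (squareIdeal K n) (∑ k, lc c j k • X k) := by
  rw [form, map_sum]
  symm
  refine Fintype.sum_equiv (singleEquiv n) _ _ fun k => ?_
  have : ((singleEquiv n) k) = ⟨{k}, card_singleton k⟩ := rfl
  rw [this, prod_singleton]
  rfl

lemma phi_eq_zero (c : CoeffIdx n (fun _ : Fin 2 => 1) → K)
    (A : Finset (Finset (Fin n))) (C : Finset (Fin n) → K)
    (h : ∀ (j : Fin 2) (g : MvPolynomial (Fin n) K), phi A C (g * ∑ k, lc c j k • X k) = 0)
    (p : MvPolynomial (Fin n) K)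
    (hp : Ideal.Quotient.mk (squareIdeal K n) p ∈ genIdeal (fun _ : Fin 2 => 1) c) :
    phi A C p = 0 := by
  rw [genIdeal, Submodule.mem_span_range_iff_exists_fun] at hp
  obtain ⟨g, hg⟩ := hp
  choose G hG using fun j => Ideal.Quotient.mk_surjective (g j)
  have h1 : Ideal.Quotient.mk (squareIdeal K n) (p - ∑ j, G j * ∑ k, lc c j k • X k) = 0 := by
    rw [map_sub, ← hg, map_sum, sub_eq_zero]
    refine Finset.sum_congr rfl fun j _ => ?_
    rw [map_mul, hG, form_linear, smul_eq_mul]
  rw [Ideal.Quotient.eq_zero_iff_mem] at h1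
  have h2 := phi_squareIdeal A C h1
  rw [map_sub, map_sum, sub_eq_zero] at h2
  rw [h2]
  exact Finset.sum_eq_zero fun j _ => h j _

/-- The first `2 q + 3` variables. -/
lemma exists_vars (q : ℕ) (hn : 2 * q + 3 ≤ n) : ∃ N : Finset (Fin n), N.card = 2 * q + 3 := by
  obtain ⟨N, _, hN⟩ := Finset.exists_subset_card_eq (s := (Finset.univ : Finset (Fin n)))
    (n := 2 * q + 3) (by simpa using hn)
  exact ⟨N, hN⟩

/-- Two linear forms with nonzero coefficients `a` and distinct ratios `b / a` leave the quotient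
nonzero in degree `q + 1` when `n ≥ 2 q + 3`. -/
theorem piece_ne_bot (c : CoeffIdx n (fun _ : Fin 2 => 1) → K) (q : ℕ) (hn : 2 * q + 3 ≤ n)
    (ha : ∀ k, lc c 0 k ≠ 0)
    (hab : ∀ i j, i ≠ j → lc c 0 i * lc c 1 j - lc c 0 j * lc c 1 i ≠ 0) :
    gradedPiece (genIdeal (fun _ : Fin 2 => 1) c) (q + 1) ≠ ⊥ := by
  classical
  obtain ⟨N, hN⟩ := exists_vars q hn
  set a : Fin n → K := lc c 0 with ha_def
  set t : Fin n → K := fun k => lc c 1 k / a k with ht_def
  have ht : Function.Injective t := by
    intro i j hij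
    by_contra hne
    apply hab i j hne
    simp only [ht_def] at hij
    rw [div_eq_div_iff (ha i) (ha j)] at hij
    rw [sub_eq_zero, mul_comm (a i), ← hij, mul_comm]
  have hb : ∀ k, lc c 1 k = a k * t k := fun k => by
    simp only [ht_def]
    rw [mul_div_cancel₀ _ (ha k)]
  obtain ⟨S, hSN, hS⟩ := Finset.exists_subset_card_eq (s := N) (n := q + 1) (by omega)
  have hSA : S ∈ N.powersetCard (q + 1) := mem_powersetCard.2 ⟨hSN, hS⟩
  intro hbot
  have hmem : ((Ideal.Quotient.mkₐ K (genIdeal (fun _ : Fin 2 => 1) c)).comp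
      (Ideal.Quotient.mkₐ K (squareIdeal K n))).toLinearMap (∏ i ∈ S, X i)
      ∈ gradedPiece (genIdeal (fun _ : Fin 2 => 1) c) (q + 1) := by
    refine Submodule.mem_map_of_mem ?_
    rw [mem_homogeneousSubmodule]
    have := IsHomogeneous.prod (R := K) S (fun i => (X i : MvPolynomial (Fin n) K)) (fun _ => 1)
      (fun i _ => isHomogeneous_X K i)
    simpa [hS] using this
  rw [hbot, Submodule.mem_bot] at hmem
  have hmem' : Ideal.Quotient.mk (squareIdeal K n) (∏ i ∈ S, X i)
      ∈ genIdeal (fun _ : Fin 2 => 1) c := by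
    rw [← Ideal.Quotient.eq_zero_iff_mem]
    exact hmem
  have h0 := phi_eq_zero c (N.powersetCard (q + 1)) (cf N a t) (fun j g => by
    refine phi_linear N q _ _ (fun T hT => ?_) g
    fin_cases j
    · have := cf_relation N a t ha ht q (by omega) 0 (by norm_num) T hT
      simpa using this
    · have := cf_relation N a t ha ht q (by omega) 1 le_rfl T hT
      simpa [hb] using this) _ hmem'
  rw [phi_prod _ _ _ hSA] at h0
  exact cf_ne_zero N a t ha ht S h0

instance (I : Ideal (SquareFreeAlg K n)) (i : ℕ) : Module.Finite K (gradedPiece I i) := by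
  rw [gradedPiece, Module.Finite.iff_fg]
  exact (homogeneousSubmodule_fg (σ := Fin n) (R := K) i).map _

lemma finrank_pos_of_ne_bot (I : Ideal (SquareFreeAlg K n)) (i : ℕ)
    (h : gradedPiece I i ≠ ⊥) : 0 < Module.finrank K (gradedPiece I i) := by
  rcases Nat.eq_zero_or_pos (Module.finrank K (gradedPiece I i)) with h0 | h0
  · exact absurd (Submodule.finrank_eq_zero.1 h0) h
  · exact h0

end linear

/-! ### The expected series -/

lemma coeff_expected (n k : ℕ) :
    PowerSeries.coeff (k + 2) ((1 + PowerSeries.X : PowerSeries ℤ) ^ n *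
      ∏ _j : Fin 2, (1 - PowerSeries.X ^ 1))
      = (n.choose (k + 2) : ℤ) - 2 * n.choose (k + 1) + n.choose k := by
  have h : ((1 + PowerSeries.X : PowerSeries ℤ) ^ n *
      ∏ _j : Fin 2, (1 - PowerSeries.X ^ 1))
      = (1 + PowerSeries.X) ^ n - (1 + PowerSeries.X) ^ n * PowerSeries.X
        - ((1 + PowerSeries.X) ^ n - (1 + PowerSeries.X) ^ n * PowerSeries.X) * PowerSeries.X := by
    simp [Finset.prod_const]
    ring
  have hc : ∀ i, PowerSeries.coeff i ((1 + PowerSeries.X : PowerSeries ℤ) ^ n)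
      = (n.choose i : ℤ) := by
    intro i
    have h1 : ((1 + PowerSeries.X : PowerSeries ℤ) ^ n)
        = (((1 + Polynomial.X : Polynomial ℤ) ^ n : Polynomial ℤ) : PowerSeries ℤ) := by
      simp
    rw [h1, Polynomial.coeff_coe, Polynomial.coeff_one_add_X_pow]
  rw [h]
  simp only [map_sub, PowerSeries.coeff_succ_mul_X, hc]
  ring

lemma choose_odd (k : ℕ) (hk : 1 ≤ k) :
    ((2 * k + 5).choose (k + 2) : ℤ) - 2 * (2 * k + 5).choose (k + 1)
      + (2 * k + 5).choose k ≤ 0 := by
  have h1 := Nat.choose_succ_right_eq (2 * k + 5) k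
  have h2 := Nat.choose_succ_right_eq (2 * k + 5) (k + 1)
  have e1 : 2 * k + 5 - k = k + 5 := by omega
  have e2 : 2 * k + 5 - (k + 1) = k + 4 := by omega
  rw [e1] at h1
  rw [e2] at h2
  set x := (2 * k + 5).choose k
  set y := (2 * k + 5).choose (k + 1)
  set z := (2 * k + 5).choose (k + 1 + 1) with hz
  have h1' : (y : ℤ) * (k + 1) = x * (k + 5) := by exact_mod_cast h1
  have h2' : (z : ℤ) * (k + 2) = y * (k + 4) := by
    have : z * (k + 2) = y * (k + 4) := h2
    exact_mod_cast this
  have hy : (0 : ℤ) ≤ y := by positivity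
  have hk' : (1 : ℤ) ≤ k := by exact_mod_cast hk
  have key : ((k : ℤ) + 5) * (k + 2) * ((z : ℤ) - 2 * y + x) = y * (2 - 2 * k) := by
    linear_combination ((k : ℤ) + 5) * h2' - (k + 2) * h1'
  by_contra hcon
  push Not at hcon
  have : 0 < ((k : ℤ) + 5) * (k + 2) * ((z : ℤ) - 2 * y + x) := by positivity
  rw [key] at this
  nlinarith [mul_nonneg hy (by linarith : (0 : ℤ) ≤ 2 * k - 2)]

lemma choose_even (k : ℕ) (hk : 4 ≤ k) :
    ((2 * k + 6).choose (k + 2) : ℤ) - 2 * (2 * k + 6).choose (k + 1)
      + (2 * k + 6).choose k ≤ 0 := by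
  have h1 := Nat.choose_succ_right_eq (2 * k + 6) k
  have h2 := Nat.choose_succ_right_eq (2 * k + 6) (k + 1)
  have e1 : 2 * k + 6 - k = k + 6 := by omega
  have e2 : 2 * k + 6 - (k + 1) = k + 5 := by omega
  rw [e1] at h1
  rw [e2] at h2
  set x := (2 * k + 6).choose k
  set y := (2 * k + 6).choose (k + 1)
  set z := (2 * k + 6).choose (k + 1 + 1) with hz
  have h1' : (y : ℤ) * (k + 1) = x * (k + 6) := by exact_mod_cast h1
  have h2' : (z : ℤ) * (k + 2) = y * (k + 5) := by
    have : z * (k + 2) = y * (k + 5) := h2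
    exact_mod_cast this
  have hy : (0 : ℤ) ≤ y := by positivity
  have hk' : (4 : ℤ) ≤ k := by exact_mod_cast hk
  have key : ((k : ℤ) + 6) * (k + 2) * ((z : ℤ) - 2 * y + x) = y * (8 - 2 * k) := by
    linear_combination ((k : ℤ) + 6) * h2' - (k + 2) * h1'
  by_contra hcon
  push Not at hcon
  have : 0 < ((k : ℤ) + 6) * (k + 2) * ((z : ℤ) - 2 * y + x) := by positivity
  rw [key] at this
  nlinarith [mul_nonneg hy (by linarith : (0 : ℤ) ≤ 2 * k - 8)]

/-- For `n ≥ 7` other than `8, 10, 12`, the expected series of two linear forms vanishes in degree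
`q + 1`, where `2 q + 3 ≤ n`. -/
lemma expected_zero (n : ℕ) (h7 : 7 ≤ n) (h8 : n ≠ 8) (h10 : n ≠ 10) (h12 : n ≠ 12) :
    ∃ q, 2 * q + 3 ≤ n ∧
      PowerSeries.coeff (q + 1) (expectedSeries n (fun _ : Fin 2 => 1)) = 0 := by
  have main : ∀ k, ((n.choose (k + 2) : ℤ) - 2 * n.choose (k + 1) + n.choose k ≤ 0) →
      PowerSeries.coeff (k + 1 + 1) (expectedSeries n (fun _ : Fin 2 => 1)) = 0 := by
    intro k hk
    rw [expectedSeries, truncation, PowerSeries.coeff_mk, if_neg]
    intro h
    have h1 := h (k + 2) le_rfl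
    rw [coeff_expected] at h1
    linarith
  rcases Nat.even_or_odd' n with ⟨m, hm | hm⟩
  · refine ⟨m - 3 + 1, by omega, main (m - 3) ?_⟩
    have h := choose_even (m - 3) (by omega)
    have e : 2 * (m - 3) + 6 = n := by omega
    rwa [e] at h
  · refine ⟨m - 2 + 1, by omega, main (m - 2) ?_⟩
    have h := choose_odd (m - 2) (by omega)
    have e : 2 * (m - 2) + 5 = n := by omega
    rwa [e] at h

/-! ### The open set -/

/-- The polynomial whose nonvanishing defines the open set: the product of the coefficients of the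
first form and of the `2 × 2` minors of the coefficient matrix. -/
noncomputable def openPoly (K : Type*) [Field K] (n : ℕ) :
    MvPolynomial (CoeffIdx n (fun _ : Fin 2 => 1)) K :=
  (∏ k : Fin n, X ⟨0, ⟨{k}, card_singleton k⟩⟩) *
    ∏ i : Fin n, ∏ j : Fin n, if i = j then 1 else
      (X ⟨0, ⟨{i}, card_singleton i⟩⟩ * X ⟨1, ⟨{j}, card_singleton j⟩⟩
        - X ⟨0, ⟨{j}, card_singleton j⟩⟩ * X ⟨1, ⟨{i}, card_singleton i⟩⟩)

lemma eval_openPoly {K : Type*} [Field K] {n : ℕ} (c : CoeffIdx n (fun _ : Fin 2 => 1) → K) :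
    eval c (openPoly K n) ≠ 0 ↔ (∀ k, lc c 0 k ≠ 0) ∧
      ∀ i j, i ≠ j → lc c 0 i * lc c 1 j - lc c 0 j * lc c 1 i ≠ 0 := by
  rw [openPoly, map_mul, map_prod, mul_ne_zero_iff, Finset.prod_ne_zero_iff]
  simp only [map_prod, Finset.prod_ne_zero_iff, mem_univ, true_implies]
  refine and_congr ?_ ?_
  · simp [lc]
  · refine forall_congr' fun i => forall_congr' fun j => ?_
    by_cases h : i = j
    · simp [h]
    · simp [h, lc]

lemma openPoly_ne_zero (K : Type*) [Field K] [Infinite K] (n : ℕ) : openPoly K n ≠ 0 := by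
  classical
  let f : ℕ → K := Infinite.natEmbedding K
  have hf : Function.Injective f := (Infinite.natEmbedding K).injective
  let c : CoeffIdx n (fun _ : Fin 2 => 1) → K := fun x =>
    if x.1 = 0 then 1 else f (∑ i ∈ x.2.1, (i : ℕ))
  intro h0
  have h1 : eval c (openPoly K n) ≠ 0 := by
    rw [eval_openPoly]
    refine ⟨fun k => by simp [lc, c], fun i j hij => ?_⟩
    have e0 : ∀ k, lc c 0 k = 1 := fun k => by simp [lc, c]
    have e1 : ∀ k : Fin n, lc c 1 k = f k := fun k => by simp [lc, c]
    rw [e0, e0, e1, e1, one_mul, one_mul, sub_ne_zero]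
    intro h
    exact hij (Fin.ext (hf h)).symm
  exact h1 (by rw [h0, map_zero])

/-- A nonzero polynomial over an infinite field has a non-root, so two generic conditions are
compatible. -/
lemma not_generically {K : Type*} [Field K] [Infinite K] {n r : ℕ} {d : Fin r → ℕ}
    {A B : Ideal (SquareFreeAlg K n) → Prop} (hA : Generically K n d A) (hB : Generically K n d B)
    (h : ∀ I, A I → ¬ B I) : False := by
  obtain ⟨P, hP, hPA⟩ := hA
  obtain ⟨Q, hQ, hQB⟩ := hB
  have hPQ : P * Q ≠ 0 := mul_ne_zero hP hQ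
  obtain ⟨c, hc⟩ : ∃ c, eval c (P * Q) ≠ 0 := by
    by_contra hcon
    push Not at hcon
    exact hPQ (MvPolynomial.funext fun c => by rw [hcon c, map_zero])
  rw [map_mul] at hc
  exact h _ (hPA c (left_ne_zero_of_mul hc)) (hQB c (right_ne_zero_of_mul hc))

/-- **Main theorem.** Let `K` be an infinite field and `n ≥ 7`, `n ≠ 8, 10, 12`. The ideal
generated by two generic linear forms of the square-free algebra in `n` variables (so `r = 2`,
`d_1 = d_2 = 1`) does not have the expected Hilbert series `⟨(1 + t)^n (1 - t)^2⟩`. -/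
theorem result (K : Type*) [Field K] [Infinite K] (n : ℕ) (h7 : 7 ≤ n) (h8 : n ≠ 8)
    (h10 : n ≠ 10) (h12 : n ≠ 12) :
    Generically K n (fun _ : Fin 2 => 1)
      (fun I => hilbertSeries I ≠ expectedSeries n (fun _ : Fin 2 => 1)) ∧
    ¬ Generically K n (fun _ : Fin 2 => 1)
      (fun I => hilbertSeries I = expectedSeries n (fun _ : Fin 2 => 1)) := by
  have main : Generically K n (fun _ : Fin 2 => 1)
      (fun I => hilbertSeries I ≠ expectedSeries n (fun _ : Fin 2 => 1)) := by
    refine ⟨openPoly K n, openPoly_ne_zero K n, fun c hc heq => ?_⟩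
    rw [eval_openPoly] at hc
    obtain ⟨q, hq, hz⟩ := expected_zero n h7 h8 h10 h12
    have h1 := finrank_pos_of_ne_bot _ _ (piece_ne_bot c q hq hc.1 hc.2)
    rw [← heq, hilbertSeries, PowerSeries.coeff_mk] at hz
    have : Module.finrank K (gradedPiece (genIdeal (fun _ : Fin 2 => 1) c) (q + 1)) = 0 := by
      exact_mod_cast hz
    omega
  exact ⟨main, fun h => not_generically main h fun I h1 h2 => h1 h2⟩

end Pool.Agent.Results.MP_3acc10_al.TwoLinearForms
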